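import Mathlib
import Pool.Agent.Helper3.FC.Goals

/-!
# Project FC, packet PAR: the parameters
-/

set_option autoImplicit false

namespace Pool.Agent.Helper72.FC.PAR

open Filter Topology Pool.Agent.Helper3.FC

theorem t : PARStmt := by
  intro ε hε
  have hl2 : 0 < Real.log 2 := Real.log_pos (by norm_num)
  have hl2a : Real.log 2 < 1 := by
    have := Real.log_two_lt_d9; linarith
  have hl2b : 1 / 2 < Real.log 2 := by
    have := Real.log_two_gt_d9; linarith
  have h4 : Tendsto (fun m : ℕ => (4 : ℝ) * m) atTop atTop :=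
    tendsto_natCast_atTop_atTop.const_mul_atTop (by norm_num)
  have hD : Tendsto (fun m : ℕ => Real.log (4 * m)) atTop atTop := Real.tendsto_log_atTop.comp h4
  have hS : Tendsto (fun m : ℕ => Real.log (4 * m) ^ 2 / (4 * m)) atTop (𝓝 0) := by
    have h := (Real.isLittleO_pow_log_id_atTop (n := 2)).tendsto_div_nhds_zero
    exact h.comp h4
  have e1 := hD.eventually (eventually_ge_atTop (max 4 (4 * (4 / ε + 1))))
  have e2 := hS.eventually (gt_mem_nhds (show (0 : ℝ) < min ε (1 / 4) by positivity))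
  have e3 : ∀ᶠ m : ℕ in atTop, 1 ≤ m := eventually_ge_atTop 1
  obtain ⟨m₀, h0⟩ := eventually_atTop.1 (e1.and (e2.and e3))
  refine ⟨m₀, fun m hm => ?_⟩
  obtain ⟨k1, k2, k3⟩ := h0 m hm
  have hm1 : (1 : ℝ) ≤ m := by exact_mod_cast k3
  have hLam : Lam m = Real.log (4 * m) / (4 * m) := rfl
  set D : ℝ := Real.log (4 * m) with hDdef
  have d4 : 4 ≤ D := (le_max_left _ _).trans k1
  have dε : 4 * (4 / ε + 1) ≤ D := (le_max_right _ _).trans k1
  have s1 : D ^ 2 / (4 * m) < ε := k2.trans_le (min_le_left _ _)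
  have s2 : D ^ 2 / (4 * m) < 1 / 4 := k2.trans_le (min_le_right _ _)
  have s3 : D ^ 2 < m := by
    rw [div_lt_iff₀ (by linarith)] at s2
    linarith
  have s4 : D ≤ m := by nlinarith
  set n : ℕ := pn m with hn
  have hq : n = ⌊D / (4 * Real.log 2)⌋₊ := rfl
  have hq0 : 0 ≤ D / (4 * Real.log 2) := by positivity
  have n1 : (n : ℝ) ≤ D / (4 * Real.log 2) := by rw [hq]; exact Nat.floor_le hq0
  have n2 : D / (4 * Real.log 2) < n + 1 := by rw [hq]; exact Nat.lt_floor_add_one _
  rw [le_div_iff₀ (by linarith)] at n1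
  rw [div_lt_iff₀ (by linarith)] at n2
  have hεN : 4 / ε ≤ n := by
    have h1 : 4 * (4 / ε + 1) < 4 * ((n : ℝ) + 1) := by
      calc 4 * (4 / ε + 1) ≤ D := dε
        _ < (n + 1) * (4 * Real.log 2) := n2
        _ ≤ (n + 1) * 4 := by
          apply mul_le_mul_of_nonneg_left _ (by positivity)
          linarith
        _ = 4 * ((n : ℝ) + 1) := by ring
    linarith
  have hεN' : 4 ≤ ε * n := by
    rw [div_le_iff₀ hε] at hεN
    linarith
  have hn0 : (0 : ℝ) < n := by
    have h1 : (0 : ℝ) < 4 / ε := by positivity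
    linarith
  have hn1 : 1 ≤ n := by exact_mod_cast hn0
  have hn1' : (1 : ℝ) ≤ n := by exact_mod_cast hn1
  have hnD : (n : ℝ) ≤ D := by nlinarith
  have hnm : n ≤ m := by
    have : (n : ℝ) ≤ m := hnD.trans s4
    exact_mod_cast this
  have hL0 : 0 < Lam m := by rw [hLam]; positivity
  have hL1 : Lam m < ε := by
    rw [hLam]
    refine lt_of_le_of_lt ?_ s1
    apply div_le_div_of_nonneg_right _ (by positivity)
    nlinarith
  have w1 : n * pw m ≤ 2 * m := Nat.mul_div_le _ _
  have w2 : n * pk m ≤ m := Nat.mul_div_le _ _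
  have w3 : 2 * m < n * (pw m + 1) := by
    have := Nat.lt_mul_div_succ (2 * m) (show 0 < n from hn1)
    exact this
  have w4 : m < n * (pk m + 1) := Nat.lt_mul_div_succ m (show 0 < n from hn1)
  have w1r : (n : ℝ) * pw m ≤ 2 * m := by exact_mod_cast w1
  have w2r : (n : ℝ) * pk m ≤ m := by exact_mod_cast w2
  have w3r : (2 : ℝ) * m < n * (pw m + 1) := by exact_mod_cast w3
  have w4r : (m : ℝ) < n * (pk m + 1) := by exact_mod_cast w4
  have hLm : Lam m * (4 * m) = D := by
    rw [hLam]; field_simp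
  set Λ : ℝ := Lam m with hΛ
  have hpw : 1 ≤ pw m := by
    rw [Nat.one_le_iff_ne_zero]
    intro h
    rw [h] at w3
    omega
  have hpk : 1 ≤ pk m := by
    rw [Nat.one_le_iff_ne_zero]
    intro h
    rw [h] at w4
    omega
  refine ⟨hn1, hpw, hpk, hL0, hL1, w1, w2, ?_, ?_, ?_, ?_, ?_, ?_, ?_, ?_⟩
  · -- 2 log 2 ≤ pw Λ + ε
    have h1 : (2 * Real.log 2) * n ≤ (pw m * Λ + Λ) * n := by
      have h2 : (2 * m) * Λ ≤ (n * (pw m + 1)) * Λ := mul_le_mul_of_nonneg_right w3r.le hL0.le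
      nlinarith
    have h3 := le_of_mul_le_mul_right h1 hn0
    linarith
  · have h1 : (pw m * Λ) * n ≤ (2 * Real.log 2 + ε) * n := by
      have h2 : (n * pw m) * Λ ≤ (2 * m) * Λ := mul_le_mul_of_nonneg_right w1r hL0.le
      nlinarith
    exact le_of_mul_le_mul_right h1 hn0
  · have h1 : (Real.log 2) * n ≤ (pk m * Λ + Λ) * n := by
      have h2 : m * Λ ≤ (n * (pk m + 1)) * Λ := mul_le_mul_of_nonneg_right w4r.le hL0.le
      nlinarith
    have h3 := le_of_mul_le_mul_right h1 hn0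
    linarith
  · have h1 : (pk m * Λ) * n ≤ (Real.log 2 + ε) * n := by
      have h2 : (n * pk m) * Λ ≤ m * Λ := mul_le_mul_of_nonneg_right w2r hL0.le
      nlinarith
    exact le_of_mul_le_mul_right h1 hn0
  · rw [le_div_iff₀ (by positivity)]
    linarith
  · rw [div_le_iff₀ (by positivity)]
    nlinarith
  · have h2 : (2 * m) * Λ ≤ (n * (pw m + 1)) * Λ := mul_le_mul_of_nonneg_right w3r.le hL0.le
    have h3 : n * Λ ≤ ε := by
      have h4 : n * Λ ≤ D * Λ := mul_le_mul_of_nonneg_right hnD hL0.le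
      have h5 : D * Λ = D ^ 2 / (4 * m) := by rw [hLam]; ring
      linarith
    nlinarith
  · linarith

end Pool.Agent.Helper72.FC.PAR
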